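import Pool.Agent.Helper80.KD.Leaf
import Pool.Agent.Helper80.KD.Fact

/-!
# The list of the corners
-/

set_option autoImplicit false

namespace Pool.Agent.Helper1.LS

open Pool.Agent.Helper80.KD
open Pool.Agent.Helper80.TP (force force_eq bl dvK dvK_eq)
open Pool.Agent.Helper82.FL (Hd DC G3 mkHd)

/-- the lists of vertices are functions of the corner -/
def GSOK (gs : GS) (fp fq : ℕ → ℕ → ℕ → List G3) : Prop :=
  ∀ x₁ x₂ x₃ k, gs x₁ x₂ x₃ k = k (fp x₁ x₂ x₃) (fq x₁ x₂ x₃)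

/-- the data of a corner -/
structure Gd (fp fq : ℕ → ℕ → ℕ → List G3) (a x₁ x₂ x₃ : ℕ) (c : DC) : Prop where
  h : ∃ r, mkHd r = some c.h
  x0 : c.x0 = bl a 0
  x1 : c.x1 = bl a 2560
  x2 : c.x2 = bl a 5120
  y0 : c.y0 = bl a 7680
  y1 : c.y1 = bl a 10240
  y2 : c.y2 = bl a 12800
  ka : c.ka = bl a 15360
  z0 : c.z0 = bl a 17920
  z1 : c.z1 = bl a 20480
  z2 : c.z2 = bl a 23040
  w0 : c.w0 = bl a 25600
  w1 : c.w1 = bl a 28160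
  w2 : c.w2 = bl a 30720
  mu : c.mu = bl a 33280
  ps : c.ps = fp x₁ x₂ x₃
  qs : c.qs = fq x₁ x₂ x₃

theorem frcH_eq (h : Hd) (k : Hd → Bool) : frcH h k = k h := by
  cases h
  rfl

/-- a step: the result is in the list, and the old elements stay -/
def Spec (F : List DC → Nat → (List DC → Nat → Bool) → Bool) (P : List DC → Prop) : Prop :=
  ∀ L w k, F L w k = true → ∃ L' w', k L' w' = true ∧ (∀ c ∈ L, c ∈ L') ∧ P L'

/-- monotone properties -/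
def Mon (P : List DC → Prop) : Prop := ∀ L L' : List DC, (∀ c ∈ L, c ∈ L') → P L → P L'

theorem getH_spec {own : ℕ} {sc : Hd} {r0 : ℕ} (h0 : mkHd r0 = some sc) (w : ℕ) (L : List DC) (k : Hd → Nat → Bool)
    (h : getH own sc w L k = true) : ∃ hd w', (∃ r, mkHd r = some hd) ∧ k hd w' = true := by
  unfold getH at h
  cases own with
  | zero => exact ⟨sc, w, ⟨r0, h0⟩, h⟩
  | succ own =>
    cases L with
    | nil => exact ⟨sc, w, ⟨r0, h0⟩, h⟩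
    | cons c L =>
      simp only at h
      cases hm : mkHd (Nat.mul 4 (Nat.mod w P128)) with
      | none =>
        rw [hm] at h
        exact Bool.noConfusion (show false = true from h)
      | some hd =>
        rw [hm] at h
        have h' : frcH hd (fun h => force (Nat.shiftRight w 128) fun w => k h w) = true := h
        rw [frcH_eq, force_eq] at h'
        exact ⟨hd, _, ⟨_, hm⟩, h'⟩

theorem mkC_spec {own : ℕ} {sc : Hd} {r0 : ℕ} (h0 : mkHd r0 = some sc) {gs : GS} {fp fq : ℕ → ℕ → ℕ → List G3}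
    (hg : GSOK gs fp fq) (a x₁ x₂ x₃ : ℕ) :
    Spec (fun L w k => mkC own sc gs a x₁ x₂ x₃ L w k) (fun L => ∃ c ∈ L, Gd fp fq a x₁ x₂ x₃ c) := by
  intro L w k h
  obtain ⟨hd, w', hr, h1⟩ := getH_spec h0 w L _ (show getH own sc w L _ = true from h)
  simp only [force_eq] at h1
  obtain ⟨D, hD⟩ := dvK_eq (bl a 15360) (bl a 33280) (fun D =>
    gs x₁ x₂ x₃ fun ps qs => k (List.cons (DC.mk hd (bl a 0) (bl a 2560) (bl a 5120) (bl a 7680) (bl a 10240)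
      (bl a 12800) (bl a 15360) (bl a 17920) (bl a 20480) (bl a 23040) (bl a 25600) (bl a 28160) (bl a 30720)
      (bl a 33280) D ps qs) L) w')
  rw [hD] at h1
  have h2 := hg x₁ x₂ x₃ (fun ps qs => k (List.cons (DC.mk hd (bl a 0) (bl a 2560) (bl a 5120) (bl a 7680) (bl a 10240)
      (bl a 12800) (bl a 15360) (bl a 17920) (bl a 20480) (bl a 23040) (bl a 25600) (bl a 28160) (bl a 30720)
      (bl a 33280) D ps qs) L) w')
  rw [h2] at h1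
  refine ⟨_, _, h1, fun c hc => List.mem_cons_of_mem _ hc, _, List.mem_cons_self, ?_⟩
  exact ⟨hr, rfl, rfl, rfl, rfl, rfl, rfl, rfl, rfl, rfl, rfl, rfl, rfl, rfl, rfl, rfl, rfl⟩

/-- one parameter -/
theorem stepD_spec {g d l h A P : ℕ} {body : Nat → Nat → List DC → Nat → (List DC → Nat → Bool) → Bool}
    {R : ℕ → ℕ → List DC → Prop} (hb : ∀ x a, Spec (body x a) (R x a)) (hm : ∀ x a, Mon (R x a)) :
    Spec (fun L w k => stepD g d l h A P body L w k)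
      (fun L => ∀ x, x = l ∨ x = h → ∃ y, (y = x ∨ g = 0) ∧ R y (A + x * P) L) := by
  intro L w k hs
  cases d with
  | zero =>
    have h1 : @Bool.rec (fun _ => Bool)
      (@Bool.rec (fun _ => Bool) false (body l A L w k) (Nat.beq (Nat.add P g) 0))
      (force (Nat.add A (Nat.mul l P)) fun a => body l a L w k) (Nat.beq l h) = true := hs
    cases hlh : Nat.beq l h with
    | true =>
      rw [hlh] at h1
      have h2 : body l (A + l * P) L w k = true := h1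
      obtain ⟨L', w', e1, e2, e3⟩ := hb l (A + l * P) L w k h2
      refine ⟨L', w', e1, e2, ?_⟩
      have e := Nat.eq_of_beq_eq_true hlh
      rintro x (rfl | rfl)
      · exact ⟨x, Or.inl rfl, e3⟩
      · subst e
        exact ⟨l, Or.inl rfl, e3⟩
    | false =>
      rw [hlh] at h1
      cases hP : Nat.beq (Nat.add P g) 0 with
      | false =>
        rw [hP] at h1
        exact Bool.noConfusion (show false = true from h1)
      | true =>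
        rw [hP] at h1
        have h2 : body l A L w k = true := h1
        have e := Nat.eq_of_beq_eq_true hP
        have e' : P + g = 0 := e
        obtain ⟨L', w', e1, e2, e3⟩ := hb l A L w k h2
        refine ⟨L', w', e1, e2, ?_⟩
        intro x _
        have hP0 : P = 0 := by omega
        have hg0 : g = 0 := by omega
        refine ⟨l, Or.inr hg0, ?_⟩
        rw [hP0, Nat.mul_zero, Nat.add_zero]
        exact e3
  | succ d =>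
    have h1 : body l (A + l * P) L w (fun L w => body h (A + h * P) L w k) = true := hs
    obtain ⟨L1, w1, e1, e2, e3⟩ := hb l (A + l * P) L w _ h1
    obtain ⟨L2, w2, f1, f2, f3⟩ := hb h (A + h * P) L1 w1 _ e1
    refine ⟨L2, w2, f1, fun c hc => f2 c (e2 c hc), ?_⟩
    rintro x (rfl | rfl)
    · exact ⟨x, Or.inl rfl, hm _ _ _ _ f2 e3⟩
    · exact ⟨x, Or.inl rfl, f3⟩

theorem mon_step {g : ℕ} {l h A P : ℕ} {R : ℕ → ℕ → List DC → Prop} (hm : ∀ x a, Mon (R x a)) :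
    Mon (fun L => ∀ x, x = l ∨ x = h → ∃ y, (y = x ∨ g = 0) ∧ R y (A + x * P) L) := by
  intro L L' hL hP x hx
  obtain ⟨y, h1, h2⟩ := hP x hx
  exact ⟨y, h1, hm _ _ _ _ hL h2⟩

/-- all corners, with variables for the parts of a number -/
noncomputable def cornsG (f3 e3 f2 e2 f1 e1 : ℕ → ℕ) (own : Nat) (sc : Hd) (gs : GS)
    (g l₁ h₁ l₂ h₂ l₃ h₃ d₁ d₂ d₃ acc w : Nat) (k : List DC → Nat → Bool) : Bool :=
  force (f3 acc) fun A3 => force (e3 acc) fun P3 =>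
  stepD g d₃ l₃ h₃ A3 P3 (fun x₃ a L w k => force (f2 a) fun A2 => force (e2 a) fun P2 =>
    stepD g d₂ l₂ h₂ A2 P2 (fun x₂ a L w k => force (f1 a) fun A1 => force (e1 a) fun P1 =>
      stepD g d₁ l₁ h₁ A1 P1 (fun x₁ a L w k => mkC own sc gs a x₁ x₂ x₃ L w k) L w k) L w k) [] w k

theorem corns_eqG (own : Nat) (sc : Hd) (gs : GS)
    (g l₁ h₁ l₂ h₂ l₃ h₃ d₁ d₂ d₃ acc w : Nat) (k : List DC → Nat → Bool) :
    corns own sc gs g l₁ h₁ l₂ h₂ l₃ h₃ d₁ d₂ d₃ acc w k =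
      cornsG lo3 hi3 lo2 hi2 lo1 hi1 own sc gs g l₁ h₁ l₂ h₂ l₃ h₃ d₁ d₂ d₃ acc w k := rfl

/-- the number at a corner -/
def atG (f3 e3 f2 e2 f1 e1 : ℕ → ℕ) (acc x₁ x₂ x₃ : ℕ) : ℕ :=
  f1 (f2 (f3 acc + x₃ * e3 acc) + x₂ * e2 (f3 acc + x₃ * e3 acc)) +
    x₁ * e1 (f2 (f3 acc + x₃ * e3 acc) + x₂ * e2 (f3 acc + x₃ * e3 acc))

theorem atC_eqG (acc x₁ x₂ x₃ : ℕ) : atC acc x₁ x₂ x₃ = atG lo3 hi3 lo2 hi2 lo1 hi1 acc x₁ x₂ x₃ := by
  unfold atC atG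
  rfl

theorem cornsG_spec {f3 e3 f2 e2 f1 e1 : ℕ → ℕ} {own : ℕ} {sc : Hd} {r0 : ℕ} (h0 : mkHd r0 = some sc) {gs : GS}
    {fp fq : ℕ → ℕ → ℕ → List G3}
    (hg : GSOK gs fp fq) {g l₁ h₁ l₂ h₂ l₃ h₃ d₁ d₂ d₃ acc w : ℕ} {fin : List DC → Bool}
    (h : cornsG f3 e3 f2 e2 f1 e1 own sc gs g l₁ h₁ l₂ h₂ l₃ h₃ d₁ d₂ d₃ acc w (fun L _ => fin L) = true) :
    ∃ L, fin L = true ∧ ∀ x₁ x₂ x₃, (x₁ = l₁ ∨ x₁ = h₁) → (x₂ = l₂ ∨ x₂ = h₂) → (x₃ = l₃ ∨ x₃ = h₃) →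
      ∃ y₁ y₂ y₃, (g ≠ 0 → y₁ = x₁ ∧ y₂ = x₂ ∧ y₃ = x₃) ∧
        ∃ c ∈ L, Gd fp fq (atG f3 e3 f2 e2 f1 e1 acc x₁ x₂ x₃) y₁ y₂ y₃ c := by
  obtain ⟨R1, hR1⟩ : ∃ R1 : ℕ → ℕ → ℕ → ℕ → List DC → Prop,
      R1 = fun x₃ x₂ x₁ a L => ∃ c ∈ L, Gd fp fq a x₁ x₂ x₃ c := ⟨_, rfl⟩
  obtain ⟨R2, hR2⟩ : ∃ R2 : ℕ → ℕ → ℕ → List DC → Prop,
      R2 = fun x₃ x₂ a L => ∀ x, x = l₁ ∨ x = h₁ → ∃ y, (y = x ∨ g = 0) ∧ R1 x₃ x₂ y (f1 a + x * e1 a) L := ⟨_, rfl⟩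
  obtain ⟨R3, hR3⟩ : ∃ R3 : ℕ → ℕ → List DC → Prop,
      R3 = fun x₃ a L => ∀ x, x = l₂ ∨ x = h₂ → ∃ y, (y = x ∨ g = 0) ∧ R2 x₃ y (f2 a + x * e2 a) L := ⟨_, rfl⟩
  have m1 : ∀ x₃ x₂ x a, Mon (R1 x₃ x₂ x a) := by
    intro x₃ x₂ x a L L' hL h1
    rw [hR1] at h1 ⊢
    obtain ⟨c, hc, h2⟩ := h1
    exact ⟨c, hL c hc, h2⟩
  have m2 : ∀ x₃ x a, Mon (R2 x₃ x a) := by
    intro x₃ x a
    rw [hR2]
    exact mon_step (m1 x₃ x)
  have m3 : ∀ x a, Mon (R3 x a) := by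
    intro x a
    rw [hR3]
    exact mon_step (m2 x)
  have s1 : ∀ x₃ x₂ x₁ a, Spec (fun L w k => mkC own sc gs a x₁ x₂ x₃ L w k) (R1 x₃ x₂ x₁ a) := by
    intro x₃ x₂ x₁ a
    rw [hR1]
    exact mkC_spec h0 hg a x₁ x₂ x₃
  have s2 : ∀ x₃ x₂ a, Spec (fun L w k =>
      stepD g d₁ l₁ h₁ (f1 a) (e1 a) (fun x₁ a L w k => mkC own sc gs a x₁ x₂ x₃ L w k) L w k) (R2 x₃ x₂ a) := by
    intro x₃ x₂ a
    rw [hR2]
    exact stepD_spec (fun x a => s1 x₃ x₂ x a) (m1 x₃ x₂)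
  have s3 : ∀ x₃ a, Spec (fun L w k =>
      stepD g d₂ l₂ h₂ (f2 a) (e2 a) (fun x₂ a L w k =>
        stepD g d₁ l₁ h₁ (f1 a) (e1 a) (fun x₁ a L w k => mkC own sc gs a x₁ x₂ x₃ L w k) L w k) L w k) (R3 x₃ a) := by
    intro x₃ a
    rw [hR3]
    exact stepD_spec (fun x a => s2 x₃ x a) (m2 x₃)
  have s4 := stepD_spec (g := g) (d := d₃) (l := l₃) (h := h₃) (A := f3 acc) (P := e3 acc)
    (fun x a => s3 x a) m3
  unfold cornsG at h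
  simp only [force_eq] at h
  obtain ⟨L', w', e1, -, e3⟩ := s4 [] w (fun L _ => fin L) h
  refine ⟨L', e1, ?_⟩
  intro x₁ x₂ x₃ k1 k2 k3
  obtain ⟨y₃, j3, e4⟩ := e3 x₃ k3
  rw [hR3] at e4
  obtain ⟨y₂, j2, e5⟩ := e4 x₂ k2
  rw [hR2] at e5
  obtain ⟨y₁, j1, e6⟩ := e5 x₁ k1
  rw [hR1] at e6
  refine ⟨y₁, y₂, y₃, fun hg0 => ⟨?_, ?_, ?_⟩, e6⟩
  · rcases j1 with h | h
    · exact h
    · exact absurd h hg0
  · rcases j2 with h | h
    · exact h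
    · exact absurd h hg0
  · rcases j3 with h | h
    · exact h
    · exact absurd h hg0

/-- **all corners**: the final list contains the data of every corner -/
theorem corns_spec {own : ℕ} {sc : Hd} {r0 : ℕ} (h0 : mkHd r0 = some sc) {gs : GS} {fp fq : ℕ → ℕ → ℕ → List G3}
    (hg : GSOK gs fp fq) {g l₁ h₁ l₂ h₂ l₃ h₃ d₁ d₂ d₃ acc w : ℕ} {fin : List DC → Bool}
    (h : corns own sc gs g l₁ h₁ l₂ h₂ l₃ h₃ d₁ d₂ d₃ acc w (fun L _ => fin L) = true) :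
    ∃ L, fin L = true ∧ ∀ x₁ x₂ x₃, (x₁ = l₁ ∨ x₁ = h₁) → (x₂ = l₂ ∨ x₂ = h₂) → (x₃ = l₃ ∨ x₃ = h₃) →
      ∃ y₁ y₂ y₃, (g ≠ 0 → y₁ = x₁ ∧ y₂ = x₂ ∧ y₃ = x₃) ∧ ∃ c ∈ L, Gd fp fq (atC acc x₁ x₂ x₃) y₁ y₂ y₃ c := by
  rw [corns_eqG] at h
  obtain ⟨L, h1, h2⟩ := cornsG_spec h0 hg h
  refine ⟨L, h1, fun x₁ x₂ x₃ k1 k2 k3 => ?_⟩
  rw [atC_eqG]
  exact h2 x₁ x₂ x₃ k1 k2 k3

end Pool.Agent.Helper1.LS
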